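import Pool.Agent.Helper750.OC.Dim
import Pool.Agent.Helper158.FCD.Torsor

set_option autoImplicit false

/-!
A computable countably categorical structure of dimension two; it is not effectively infinite.
-/

namespace Pool.Agent.Results.MP_dc233e_lc.DimensionTwo

open Pool.Agent.Helper750.DC Pool.Agent.Helper750.CT Pool.Agent.Helper750.OC

/-- There are a computable language `L`, a complete theory `T` in `L` and a structure `A` (with
universe `ℕ`) such that `A` is a computable model of `T`, `T` is countably categorical, `A` has
exactly two constructivizations up to autoequivalence (dimension `2`), and `A` is not effectively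
infinite. -/
theorem result : ∃ (L : Lang) (T : Set Fml) (A : Str), L.IsComputable ∧ IsComplete T ∧
    -- `A` is a computable model of `T`
    IsComputableStr L A ∧ IsModel L T A ∧
    -- `T` is countably categorical
    (∀ B C, IsModel L T B → IsModel L T C → ∃ f, IsIso L B C f) ∧
    -- `A` has dimension `2`; in particular it is not autostable
    DimTwo L A ∧
    -- `A` is not effectively infinite
    ¬ EffInf L A := by
  obtain ⟨T⟩ := Pool.Agent.Helper158.FCD.torsor
  have h := dimTwo T
  refine ⟨LL, Th LL (MC (cA T)), MC (cA T), ⟨Computable.option_some, Computable.const _⟩,
    Th_complete _, MC_comp _ (cA_comp T), fun φ hφ => hφ.2, cat_A T, h, not_effInf h⟩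

end Pool.Agent.Results.MP_dc233e_lc.DimensionTwo
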